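import Mathlib

set_option autoImplicit false

open Module

namespace Pool.Agent.V1139.Uq

section
variable {K : Type*} [Field K] [CharZero K] {V : Type*} [AddCommGroup V] [Module K V]

/-- If `x` is invertible and `x l = 4 l x` on a space of dimension four, then `l ^ 4 = 0`. -/
theorem pow_four_eq_zero [FiniteDimensional K V] (hV : finrank K V = 4)
    (x xi l : Module.End K V) (h1 : x * xi = 1)
    (h : x * l = (4 : K) • (l * x)) : l ^ 4 = 0 := by
  have hdet : LinearMap.det x ≠ 0 := by
    intro h0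
    have : LinearMap.det (x * xi) = 1 := by rw [h1]; simp
    rw [map_mul, h0, zero_mul] at this
    exact zero_ne_one this
  have key : ∀ t : K, LinearMap.det (algebraMap K (Module.End K V) t - l)
      = LinearMap.det (algebraMap K (Module.End K V) t - (4 : K) • l) := by
    intro t
    have e : x * (algebraMap K (Module.End K V) t - l)
        = (algebraMap K (Module.End K V) t - (4 : K) • l) * x := by
      rw [mul_sub, sub_mul, h, smul_mul_assoc, Algebra.commutes]
    have e2 := congrArg LinearMap.det e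
    rw [map_mul, map_mul, mul_comm] at e2
    exact mul_right_cancel₀ hdet e2
  have key2 : ∀ t : K, LinearMap.det (algebraMap K (Module.End K V) (4 * t) - l)
      = 256 * LinearMap.det (algebraMap K (Module.End K V) t - l) := by
    intro t
    rw [key]
    have : (algebraMap K (Module.End K V) (4 * t) - (4 : K) • l)
        = (4 : K) • (algebraMap K (Module.End K V) t - l) := by
      rw [smul_sub, Algebra.smul_def (4 : K) (algebraMap K (Module.End K V) t), map_mul]
    rw [this, LinearMap.det_smul, hV]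
    norm_num
  have hpoly : l.charpoly.comp (Polynomial.C 4 * Polynomial.X) = Polynomial.C 256 * l.charpoly := by
    apply Polynomial.funext
    intro t
    rw [Polynomial.eval_comp, Polynomial.eval_mul, Polynomial.eval_mul, Polynomial.eval_C,
      Polynomial.eval_C, Polynomial.eval_X, LinearMap.eval_charpoly, LinearMap.eval_charpoly, key2]
  have hc : ∀ k, k ≠ 4 → l.charpoly.coeff k = 0 := by
    intro k hk
    have := congrArg (fun p => Polynomial.coeff p k) hpoly
    simp only [Polynomial.comp_C_mul_X_coeff, Polynomial.coeff_C_mul] at this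
    have h3 : l.charpoly.coeff k * ((4 : K) ^ k - 256) = 0 := by linear_combination this
    rcases mul_eq_zero.mp h3 with h4 | h4
    · exact h4
    · exfalso
      apply hk
      have h5 : ((4 : ℕ) ^ k : ℕ) = (4 ^ 4 : ℕ) := by
        have : ((4 ^ k : ℕ) : K) = ((4 ^ 4 : ℕ) : K) := by
          push_cast
          linear_combination h4
        exact_mod_cast this
      exact Nat.pow_right_injective (le_refl 4 |>.trans' (by norm_num)) h5
  have hdeg : l.charpoly.natDegree = 4 := by rw [LinearMap.charpoly_natDegree, hV]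
  have hmon := l.charpoly_monic
  have hcp : l.charpoly = Polynomial.X ^ 4 := by
    ext k
    rw [Polynomial.coeff_X_pow]
    split_ifs with hk
    · rw [hk, ← hdeg]; exact hmon
    · exact hc k hk
  have := l.aeval_self_charpoly
  rw [hcp] at this
  simpa using this

/-- If `x` is invertible and `n x = 4 x n` on a space of dimension four, then `n` has a kernel. -/
theorem exists_ker [FiniteDimensional K V] (hV : finrank K V = 4)
    (x xi n : Module.End K V) (h1 : x * xi = 1) 
    (h : n * x = (4 : K) • (x * n)) : ∃ w, w ≠ 0 ∧ n w = 0 := by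
  have hdet : LinearMap.det x ≠ 0 := by
    intro h0
    have : LinearMap.det (x * xi) = 1 := by rw [h1]; simp
    rw [map_mul, h0, zero_mul] at this
    exact zero_ne_one this
  have e := congrArg LinearMap.det h
  rw [map_mul, LinearMap.det_smul, map_mul, hV] at e
  have hn : LinearMap.det n = 0 := by
    have : LinearMap.det n * LinearMap.det x * 255 = 0 := by linear_combination -e
    rcases mul_eq_zero.mp this with h | h
    · rcases mul_eq_zero.mp h with h | h
      · exact h
      · exact absurd h hdet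
    · norm_num at h
  have hb := LinearMap.bot_lt_ker_of_det_eq_zero hn
  obtain ⟨w, hw, hw0⟩ := (Submodule.ne_bot_iff _).mp (ne_of_gt hb)
  exact ⟨w, hw0, hw⟩

end

/-- `U_q(sl_2)` relations in the equitable presentation. -/
structure Rep {K V : Type*} [Field K] [AddCommGroup V] [Module K V] 
    (X Xi Y Z : Module.End K V) : Prop where
  h1 : X * Xi = 1
  h2 : Xi * X = 1
  hxy : (4 : K) • (X * Y) = (3 : K) • 1 + Y * X
  hyz : (4 : K) • (Y * Z) = (3 : K) • 1 + Z * Y
  hzx : (4 : K) • (Z * X) = (3 : K) • 1 + X * Z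

section
variable {K : Type*} [Field K] {V : Type*} [AddCommGroup V] [Module K V]
variable {X Xi Y Z : Module.End K V}

theorem Rep.xy (R : Rep X Xi Y Z) (v : V) : (4 : K) • X (Y v) = (3 : K) • v + Y (X v) := by
  have := LinearMap.congr_fun R.hxy v
  simpa using this

theorem Rep.yz (R : Rep X Xi Y Z) (v : V) : (4 : K) • Y (Z v) = (3 : K) • v + Z (Y v) := by
  have := LinearMap.congr_fun R.hyz v
  simpa using this

theorem Rep.zx (R : Rep X Xi Y Z) (v : V) : (4 : K) • Z (X v) = (3 : K) • v + X (Z v) := by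
  have := LinearMap.congr_fun R.hzx v
  simpa using this

theorem Rep.nX (R : Rep X Xi Y Z) : (1 - X * Y) * X = (4 : K) • (X * (1 - X * Y)) := by
  ext v
  have := R.xy (v)
  simp only [Module.End.mul_apply, LinearMap.sub_apply, Module.End.one_apply, LinearMap.smul_apply,
    map_sub]
  have e : Y (X v) = (4 : K) • X (Y v) - (3 : K) • v := by rw [this]; abel
  rw [e]
  simp only [map_sub, map_smul]
  module

theorem Rep.Xl (R : Rep X Xi Y Z) : X * (1 - Z * X) = (4 : K) • ((1 - Z * X) * X) := by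
  ext v
  have := R.zx (X v)
  simp only [Module.End.mul_apply, LinearMap.sub_apply, Module.End.one_apply, LinearMap.smul_apply,
    map_sub]
  have e : X (Z (X v)) = (4 : K) • Z (X (X v)) - (3 : K) • X v := by rw [this]; abel
  rw [e]
  module

variable [CharZero K]

/-- commutation of `n = 1 - XY` and `l = 1 - ZX` -/
theorem Rep.nl (R : Rep X Xi Y Z) (v : V) :
    (1 - X * Y) ((1 - Z * X) v) = (4 : K) • (1 - Z * X) ((1 - X * Y) v)
      - (3 / 4 : K) • (v - X (X v)) := by
  simp only [Module.End.mul_apply, LinearMap.sub_apply, Module.End.one_apply, map_sub]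
  -- v - Z X v - X Y v + X Y Z X v
  have a1 : Y (Z (X v)) = (3 / 4 : K) • X v + (1 / 4 : K) • Z (Y (X v)) := by
    have := R.yz (X v)
    have h4 : Y (Z (X v)) = (1 / 4 : K) • ((4 : K) • Y (Z (X v))) := by
      rw [smul_smul]; norm_num
    rw [h4, this]; module
  have a2 : Y (X v) = (4 : K) • X (Y v) - (3 : K) • v := by rw [R.xy v]; abel
  have a3 : X (Z v) = (4 : K) • Z (X v) - (3 : K) • v := by rw [R.zx v]; abel
  have a4 : X (Z (X (Y v))) = (4 : K) • Z (X (X (Y v))) - (3 : K) • X (Y v) := by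
    rw [R.zx (X (Y v))]; abel
  rw [a1, a2]
  simp only [map_add, map_sub, map_smul, a3, a4]
  module


theorem Rep.nXv (R : Rep X Xi Y Z) (v : V) :
    (1 - X * Y) (X v) = (4 : K) • X ((1 - X * Y) v) := by
  have := LinearMap.congr_fun R.nX v
  simpa using this

theorem Rep.Xlv (R : Rep X Xi Y Z) (v : V) :
    X ((1 - Z * X) v) = (4 : K) • (1 - Z * X) (X v) := by
  have := LinearMap.congr_fun R.Xl v
  simpa using this

/-- on `ker n`: `n l^{j+1} = - c_j l^j (1 - 4^j X^2)`. -/
theorem Rep.chain1 (R : Rep X Xi Y Z) (v : V) (hv : (1 - X * Y) v = 0) :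
    (1 - X * Y) ((1 - Z * X) v) = (-(3 / 4) : K) • (v - X (X v)) := by
  rw [R.nl, hv, map_zero]; module

theorem Rep.chain2 (R : Rep X Xi Y Z) (v : V) (hv : (1 - X * Y) v = 0) :
    (1 - X * Y) ((1 - Z * X) ((1 - Z * X) v))
      = (-(15 / 4) : K) • (1 - Z * X) (v - (4 : K) • X (X v)) := by
  rw [R.nl, R.chain1 v hv, R.Xlv, map_smul X, R.Xlv]
  generalize (1 - Z * X) = l
  simp only [map_sub, map_smul]
  module

theorem Rep.chain3 (R : Rep X Xi Y Z) (v : V) (hv : (1 - X * Y) v = 0) :
    (1 - X * Y) ((1 - Z * X) ((1 - Z * X) ((1 - Z * X) v)))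
      = (-(63 / 4) : K) • (1 - Z * X) ((1 - Z * X) (v - (16 : K) • X (X v))) := by
  rw [R.nl, R.chain2 v hv, R.Xlv, map_smul X, R.Xlv, R.Xlv, map_smul (1 - Z * X), map_smul X,
    R.Xlv]
  generalize (1 - Z * X) = l
  simp only [map_sub, map_smul]
  module

theorem Rep.chain4 (R : Rep X Xi Y Z) (v : V) (hv : (1 - X * Y) v = 0) :
    (1 - X * Y) ((1 - Z * X) ((1 - Z * X) ((1 - Z * X) ((1 - Z * X) v))))
      = (-(255 / 4) : K) • (1 - Z * X) ((1 - Z * X) ((1 - Z * X) (v - (64 : K) • X (X v)))) := by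
  rw [R.nl, R.chain3 v hv]
  have e : X (X ((1 - Z * X) ((1 - Z * X) ((1 - Z * X) v))))
      = (4096 : K) • (1 - Z * X) ((1 - Z * X) ((1 - Z * X) (X (X v)))) := by
    simp only [R.Xlv, map_smul]
    module
  rw [e]
  generalize (1 - Z * X) = l
  simp only [map_sub, map_smul]
  module

theorem Rep.ker_stable (R : Rep X Xi Y Z) (t : K) (v : V) (hv : (1 - X * Y) v = 0) :
    (1 - X * Y) (v - t • X (X v)) = 0 := by
  have h1 : (1 - X * Y) (X v) = 0 := by rw [R.nXv, hv]; simp
  have h2 : (1 - X * Y) (X (X v)) = 0 := by rw [R.nXv, h1]; simp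
  rw [map_sub, map_smul, hv, h2]; simp

/-- common step: if `u ≠ 0` is killed by `n` and by `1 - s^2 X^2`, there is an eigenvector. -/
theorem Rep.step (R : Rep X Xi Y Z) (s : K) (hs : s ≠ 0) (u : V) (hu : u ≠ 0)
    (hn : (1 - X * Y) u = 0) (h : u - (s ^ 2) • X (X u) = 0) :
    ∃ (w : V) (μ : K), w ≠ 0 ∧ (1 - X * Y) w = 0 ∧ μ ≠ 0 ∧ X w = μ • w := by
  have hXn : (1 - X * Y) (X u) = 0 := by rw [R.nXv, hn]; simp
  have hX2 : X (X u) = (s⁻¹ ^ 2) • u := by
    have : u = (s ^ 2) • X (X u) := by rw [sub_eq_zero] at h; exact h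
    conv_rhs => rw [this]
    rw [smul_smul, ← mul_pow, inv_mul_cancel₀ hs]; simp
  by_cases hw : X u + s⁻¹ • u = 0
  · refine ⟨u, -s⁻¹, hu, hn, by simpa using hs, ?_⟩
    rw [neg_smul]; exact eq_neg_of_add_eq_zero_left hw
  · refine ⟨X u + s⁻¹ • u, s⁻¹, hw, ?_, inv_ne_zero hs, ?_⟩
    · rw [map_add, map_smul, hn, hXn]; simp
    · rw [map_add, map_smul, hX2, smul_add, smul_smul, pow_two]; abel

theorem Rep.exists_eigen [FiniteDimensional K V] (hV : finrank K V = 4) (R : Rep X Xi Y Z) :
    ∃ (w : V) (μ : K), w ≠ 0 ∧ (1 - X * Y) w = 0 ∧ μ ≠ 0 ∧ X w = μ • w := by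
  obtain ⟨w, hw0, hw⟩ := exists_ker hV X Xi (1 - X * Y) R.h1 R.nX
  have hl := pow_four_eq_zero hV X Xi (1 - Z * X) R.h1 R.Xl
  have hl4 : ∀ v, (1 - Z * X) ((1 - Z * X) ((1 - Z * X) ((1 - Z * X) v))) = 0 := by
    intro v
    have := LinearMap.congr_fun hl v
    simpa [pow_succ] using this
  set w3 := w - (64 : K) • X (X w) with hw3
  have k3 := R.ker_stable 64 w hw
  rw [← hw3] at k3
  by_cases c3 : w3 = 0
  · exact R.step 8 (by norm_num) w hw0 hw (by rw [← c3, hw3]; norm_num)
  have e3 : (1 - Z * X) ((1 - Z * X) ((1 - Z * X) w3)) = 0 := by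
    have := R.chain4 w hw
    rw [hl4, map_zero] at this
    have h := this.symm
    rw [smul_eq_zero] at h
    rcases h with h | h
    · norm_num at h
    · exact h
  set w2 := w3 - (16 : K) • X (X w3) with hw2
  have k2 := R.ker_stable 16 w3 k3
  rw [← hw2] at k2
  by_cases c2 : w2 = 0
  · exact R.step 4 (by norm_num) w3 c3 k3 (by rw [← c2, hw2]; norm_num)
  have e2 : (1 - Z * X) ((1 - Z * X) w2) = 0 := by
    have := R.chain3 w3 k3
    rw [e3, map_zero] at this
    have h := this.symm
    rw [smul_eq_zero] at h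
    rcases h with h | h
    · norm_num at h
    · exact h
  set w1 := w2 - (4 : K) • X (X w2) with hw1
  have k1 := R.ker_stable 4 w2 k2
  rw [← hw1] at k1
  by_cases c1 : w1 = 0
  · exact R.step 2 (by norm_num) w2 c2 k2 (by rw [← c1, hw1]; norm_num)
  have e1 : (1 - Z * X) w1 = 0 := by
    have := R.chain2 w2 k2
    rw [e2, map_zero] at this
    have h := this.symm
    rw [smul_eq_zero] at h
    rcases h with h | h
    · norm_num at h
    · exact h
  have e0 : w1 - X (X w1) = 0 := by
    have := R.chain1 w1 k1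
    rw [e1, map_zero] at this
    have h := this.symm
    rw [smul_eq_zero] at h
    rcases h with h | h
    · norm_num at h
    · exact h
  exact R.step 1 (by norm_num) w1 c1 k1 (by simpa using e0)

/-- one step down the chain -/
theorem Rep.down (R : Rep X Xi Y Z) (m : K) (hm : m ≠ 0) (w : V) (hY : Y w = m⁻¹ • w) :
    Y (w - Y (Z w)) = (4 * m)⁻¹ • (w - Y (Z w)) ∧
    Z w = m • (w - (4 : K) • (w - Y (Z w))) := by
  have h := R.yz w
  rw [hY, map_smul] at h
  have h2 : Z w = m • ((4 : K) • Y (Z w) - (3 : K) • w) := by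
    rw [h, add_sub_cancel_left, smul_smul, mul_inv_cancel₀ hm, one_smul]
  constructor
  · have h3 := R.yz (Y (Z w))
    have h4 : Y (Y (Z w)) = (4 * m)⁻¹ • ((3 : K) • w + Y (Z w)) - (0 : K) • w := by
      -- from `4 Y Z w = 3 w + m⁻¹ Z w`, apply `Y`
      have h5 := congrArg Y h
      simp only [map_add, map_smul, hY] at h5
      have : Y (Y (Z w)) = (4 : K)⁻¹ • ((4 : K) • Y (Y (Z w))) := by rw [smul_smul]; norm_num
      rw [this, h5, mul_inv]
      module
    rw [map_sub, hY, h4, mul_inv]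
    module
  · conv_lhs => rw [h2]
    module

theorem Rep.upX (R : Rep X Xi Y Z) (m x : K) (hm : m ≠ 0) (p w w' : V)
    (hZp : x • Z p = (x * (m / 4)) • (p - (4 : K) • w)) (hZw : Z w = m • (w - (4 : K) • w'))
    (hX : X w = m • w + x • p) :
    X w' = (4 * m) • w' + (x + 3 / 4 * (m⁻¹ - m)) • w := by
  have h := R.zx w
  rw [hX, map_add, map_smul, map_smul, hZp, hZw, map_smul, map_sub, map_smul, hX] at h
  have h2 : (4 * m) • X w' = (3 : K) • w + m • (m • w + x • p)
      - (4 : K) • (m • m • (w - (4 : K) • w') + (x * (m / 4)) • (p - (4 : K) • w)) := by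
    rw [h]; module
  have h3 : X w' = (4 * m)⁻¹ • ((4 * m) • X w') := by
    rw [smul_smul, inv_mul_cancel₀ (mul_ne_zero (by norm_num) hm), one_smul]
  rw [h3, h2]
  match_scalars <;> field_simp <;> ring

end

/-- Irreducibility. -/
def Irr {K V : Type*} [Field K] [AddCommGroup V] [Module K V] (X Xi Y Z : Module.End K V) : Prop :=
  ∀ W : Submodule K V, (∀ v ∈ W, X v ∈ W) → (∀ v ∈ W, Xi v ∈ W) → (∀ v ∈ W, Y v ∈ W) →
    (∀ v ∈ W, Z v ∈ W) → W = ⊥ ∨ W = ⊤

theorem inv_stable {K V : Type*} [Field K] [AddCommGroup V] [Module K V] [FiniteDimensional K V]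
    {X Xi : Module.End K V} (h1 : X * Xi = 1) (h2 : Xi * X = 1) (W : Submodule K V)
    (hW : ∀ v ∈ W, X v ∈ W) : ∀ v ∈ W, Xi v ∈ W := by
  let e : V ≃ₗ[K] V := LinearEquiv.ofLinearMap X Xi h1 h2
  have hmap : W.map (e : V →ₗ[K] V) = W := by
    apply Submodule.eq_of_le_of_finrank_eq
    · rintro _ ⟨v, hv, rfl⟩
      exact hW v hv
    · exact LinearEquiv.finrank_map_eq e W
  intro v hv
  rw [← hmap] at hv
  obtain ⟨u, hu, rfl⟩ := hv
  have ha := LinearMap.congr_fun h2 u
  simp only [Module.End.mul_apply, Module.End.one_apply] at ha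
  change Xi (X u) ∈ W
  rw [ha]; exact hu

section
variable {K : Type*} [Field K] [CharZero K] {V : Type*} [AddCommGroup V] [Module K V]
variable {X Xi Y Z : Module.End K V}

/-- The structure of the four-dimensional irreducible modules for `q = 2`. -/
theorem Rep.main [FiniteDimensional K V] (hV : finrank K V = 4) (R : Rep X Xi Y Z)
    (hI : Irr X Xi Y Z) :
    ∃ (b : Basis (Fin 4) K V) (m : K), m ^ 2 = 1 / 64 ∧
      X (b 0) = m • b 0 ∧ X (b 1) = (4 * m) • b 1 + (189 / 4 * m) • b 0 ∧
      X (b 2) = (16 * m) • b 2 + (225 / 4 * m) • b 1 ∧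
      X (b 3) = (64 * m) • b 3 + (189 / 4 * m) • b 2 ∧
      Y (b 0) = (64 * m) • b 0 ∧ Y (b 1) = (16 * m) • b 1 ∧ Y (b 2) = (4 * m) • b 2 ∧
      Y (b 3) = m • b 3 ∧
      Z (b 0) = m • (b 0 - (4 : K) • b 1) ∧ Z (b 1) = (4 * m) • (b 1 - (4 : K) • b 2) ∧
      Z (b 2) = (16 * m) • (b 2 - (4 : K) • b 3) ∧ Z (b 3) = (64 * m) • b 3 := by
  obtain ⟨w0, μ, hw0, hn, hμ, hXw⟩ := R.exists_eigen hV
  have hY0 : Y w0 = μ⁻¹ • w0 := by
    have h : X (Y w0) = w0 := by
      simp only [LinearMap.sub_apply, Module.End.mul_apply, Module.End.one_apply] at hn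
      exact (sub_eq_zero.mp hn).symm
    have h2 := R.xy w0
    rw [h, hXw, map_smul] at h2
    have h3 : μ • Y w0 = w0 := by
      have : μ • Y w0 = (4 : K) • w0 - (3 : K) • w0 := by rw [h2]; abel
      rw [this]; module
    have : μ⁻¹ • (μ • Y w0) = μ⁻¹ • w0 := by rw [h3]
    rwa [smul_smul, inv_mul_cancel₀ hμ, one_smul] at this
  obtain ⟨hY1, hZ0⟩ := R.down μ hμ w0 hY0
  set w1 := w0 - Y (Z w0) with hw1
  obtain ⟨hY2, hZ1⟩ := R.down (4 * μ) (mul_ne_zero (by norm_num) hμ) w1 hY1
  set w2 := w1 - Y (Z w1) with hw2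
  obtain ⟨hY3, hZ2⟩ := R.down (4 * (4 * μ))
    (mul_ne_zero (by norm_num) (mul_ne_zero (by norm_num) hμ)) w2 hY2
  set w3 := w2 - Y (Z w2) with hw3
  obtain ⟨hY4, hZ3⟩ := R.down (4 * (4 * (4 * μ)))
    (mul_ne_zero (by norm_num) (mul_ne_zero (by norm_num) (mul_ne_zero (by norm_num) hμ))) w3 hY3
  set w4 := w3 - Y (Z w3) with hw4
  have hX1 := R.upX μ 0 hμ 0 w0 w1 (by simp) hZ0 (by rw [hXw]; simp)
  have hX2 := R.upX (4 * μ) _ (mul_ne_zero (by norm_num) hμ) w0 w1 w2
    (by rw [hZ0]; module) hZ1 hX1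
  have hX3 := R.upX (4 * (4 * μ)) _
    (mul_ne_zero (by norm_num) (mul_ne_zero (by norm_num) hμ)) w1 w2 w3
    (by rw [hZ1]; module) hZ2 hX2
  have hX4 := R.upX (4 * (4 * (4 * μ))) _
    (mul_ne_zero (by norm_num) (mul_ne_zero (by norm_num) (mul_ne_zero (by norm_num) hμ)))
    w2 w3 w4 (by rw [hZ2]; module) hZ3 hX3
  -- `w4 = 0`
  have eig : ∀ (c : K) (w : V), w ≠ 0 → Y w = c • w → Module.End.HasEigenvector Y c w :=
    fun c w hw h => ⟨Module.End.mem_eigenspace_iff.mpr h, hw⟩
  have hw1' : w1 = 0 → w2 = 0 := fun h => by rw [hw2, h]; simp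
  have hw2' : w2 = 0 → w3 = 0 := fun h => by rw [hw3, h]; simp
  have hw3' : w3 = 0 → w4 = 0 := fun h => by rw [hw4, h]; simp
  have h4 : w4 = 0 := by
    by_contra h4
    have h3 : w3 ≠ 0 := fun h => h4 (hw3' h)
    have h2 : w2 ≠ 0 := fun h => h3 (hw2' h)
    have h1 : w1 ≠ 0 := fun h => h2 (hw1' h)
    have hli := Module.End.eigenvectors_linearIndependent' Y
      (![μ⁻¹, (4 * μ)⁻¹, (4 * (4 * μ))⁻¹, (4 * (4 * (4 * μ)))⁻¹, (4 * (4 * (4 * (4 * μ))))⁻¹]) (by
        have hinj : Function.Injective (fun i : Fin 5 => (4 : K) ^ (i : ℕ) * μ) := by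
          intro i j hij
          have h := mul_right_cancel₀ hμ hij
          have h' : ((4 ^ (i : ℕ) : ℕ) : K) = ((4 ^ (j : ℕ) : ℕ) : K) := by push_cast; exact h
          have h'' : 4 ^ (i : ℕ) = 4 ^ (j : ℕ) := by exact_mod_cast h'
          exact Fin.ext (Nat.pow_right_injective (le_refl 4 |>.trans' (by norm_num)) h'')
        have hf : (![μ⁻¹, (4 * μ)⁻¹, (4 * (4 * μ))⁻¹, (4 * (4 * (4 * μ)))⁻¹,
            (4 * (4 * (4 * (4 * μ))))⁻¹] : Fin 5 → K)
            = fun i : Fin 5 => ((4 : K) ^ (i : ℕ) * μ)⁻¹ := by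
          funext i
          fin_cases i <;> simp <;> ring
        rw [hf]
        intro i j hij
        exact hinj (inv_injective hij)) (![w0, w1, w2, w3, w4]) (by
        intro i
        fin_cases i
        · exact eig _ _ hw0 hY0
        · exact eig _ _ h1 hY1
        · exact eig _ _ h2 hY2
        · exact eig _ _ h3 hY3
        · exact eig _ _ h4 hY4)
    have := hli.fintype_card_le_finrank
    rw [hV] at this
    simp at this
  -- span of `w0, …, w3`
  let v : Fin 4 → V := ![w0, w1, w2, w3]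
  have hm : ∀ i, v i ∈ Submodule.span K (Set.range v) := fun i => Submodule.subset_span ⟨i, rfl⟩
  have m0 : w0 ∈ Submodule.span K (Set.range v) := hm 0
  have m1 : w1 ∈ Submodule.span K (Set.range v) := hm 1
  have m2 : w2 ∈ Submodule.span K (Set.range v) := hm 2
  have m3 : w3 ∈ Submodule.span K (Set.range v) := hm 3
  have stab : ∀ T : Module.End K V, T w0 ∈ Submodule.span K (Set.range v) →
      T w1 ∈ Submodule.span K (Set.range v) → T w2 ∈ Submodule.span K (Set.range v) →
      T w3 ∈ Submodule.span K (Set.range v) →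
      ∀ u ∈ Submodule.span K (Set.range v), T u ∈ Submodule.span K (Set.range v) := by
    intro T t0 t1 t2 t3 u hu
    induction hu using Submodule.span_induction with
    | mem x hx =>
      obtain ⟨i, rfl⟩ := hx
      fin_cases i
      · exact t0
      · exact t1
      · exact t2
      · exact t3
    | zero => simp
    | add x y _ _ hx hy => rw [map_add]; exact Submodule.add_mem _ hx hy
    | smul a x _ hx => rw [map_smul]; exact Submodule.smul_mem _ _ hx
  have sX : ∀ u ∈ Submodule.span K (Set.range v), X u ∈ Submodule.span K (Set.range v) := by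
    apply stab
    · rw [hXw]; exact Submodule.smul_mem _ _ m0
    · rw [hX1]; exact Submodule.add_mem _ (Submodule.smul_mem _ _ m1) (Submodule.smul_mem _ _ m0)
    · rw [hX2]; exact Submodule.add_mem _ (Submodule.smul_mem _ _ m2) (Submodule.smul_mem _ _ m1)
    · rw [hX3]; exact Submodule.add_mem _ (Submodule.smul_mem _ _ m3) (Submodule.smul_mem _ _ m2)
  have sY : ∀ u ∈ Submodule.span K (Set.range v), Y u ∈ Submodule.span K (Set.range v) := by
    apply stab
    · rw [hY0]; exact Submodule.smul_mem _ _ m0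
    · rw [hY1]; exact Submodule.smul_mem _ _ m1
    · rw [hY2]; exact Submodule.smul_mem _ _ m2
    · rw [hY3]; exact Submodule.smul_mem _ _ m3
  have sZ : ∀ u ∈ Submodule.span K (Set.range v), Z u ∈ Submodule.span K (Set.range v) := by
    apply stab
    · rw [hZ0]; exact Submodule.smul_mem _ _ (Submodule.sub_mem _ m0 (Submodule.smul_mem _ _ m1))
    · rw [hZ1]; exact Submodule.smul_mem _ _ (Submodule.sub_mem _ m1 (Submodule.smul_mem _ _ m2))
    · rw [hZ2]; exact Submodule.smul_mem _ _ (Submodule.sub_mem _ m2 (Submodule.smul_mem _ _ m3))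
    · rw [hZ3, h4]
      exact Submodule.smul_mem _ _ (Submodule.sub_mem _ m3 (Submodule.smul_mem _ _
        (Submodule.zero_mem _)))
  have hspan : Submodule.span K (Set.range v) = ⊤ := by
    rcases hI (Submodule.span K (Set.range v)) sX (inv_stable R.h1 R.h2 _ sX) sY sZ with h | h
    · exfalso
      rw [h, Submodule.mem_bot] at m0
      exact hw0 m0
    · exact h
  have hli : LinearIndependent K v :=
    linearIndependent_of_top_le_span_of_card_eq_finrank (le_of_eq hspan.symm) (by simp [hV])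
  let b : Basis (Fin 4) K V := Basis.mk hli (le_of_eq hspan.symm)
  have b0 : b 0 = w0 := by simp [b, v]
  have b1 : b 1 = w1 := by simp [b, v]
  have b2 : b 2 = w2 := by simp [b, v]
  have b3 : b 3 = w3 := by simp [b, v]
  have hw3n : w3 ≠ 0 := by rw [← b3]; exact b.ne_zero 3
  have hμ2 : μ ^ 2 = 1 / 64 := by
    rw [h4, map_zero, smul_zero, zero_add] at hX4
    have h := hX4.symm
    rw [smul_eq_zero] at h
    rcases h with h | h
    · field_simp at h
      have e : (μ ^ 2 - 1 / 64) * 16320 = 0 := by linear_combination (-1 : K) * h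
      rcases mul_eq_zero.mp e with h | h
      · linear_combination h
      · norm_num at h
    · exact absurd h hw3n
  have hinv : μ⁻¹ = 64 * μ := by
    field_simp
    linear_combination (-64 : K) * hμ2
  refine ⟨b, μ, hμ2, ?_, ?_, ?_, ?_, ?_, ?_, ?_, ?_, ?_, ?_, ?_, ?_⟩ <;>
    simp only [b0, b1, b2, b3]
  · exact hXw
  · rw [hX1, hinv]; congr 2; ring
  · rw [hX2, mul_inv, hinv]; congr 2 <;> ring
  · rw [hX3]; simp only [mul_inv, hinv]; congr 2 <;> ring
  · rw [hY0, hinv]
  · rw [hY1]; simp only [mul_inv, hinv]; congr 1; ring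
  · rw [hY2]; simp only [mul_inv, hinv]; congr 1; ring
  · rw [hY3]; simp only [mul_inv, hinv]; congr 1; ring
  · exact hZ0
  · exact hZ1
  · rw [hZ2]; congr 1; ring
  · rw [hZ3, h4]; simp only [smul_zero, sub_zero]; congr 1; ring

end

end Pool.Agent.V1139.Uq
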